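import Pool.Agent.Lib.MP_af3a4a_an.P1.CHK.BOX.Data

/-! curves for 40 <= N <= 41 (generated) -/

set_option autoImplicit false
set_option maxRecDepth 100000

namespace Pool.Agent.Lib.MP_af3a4a_an.P1.CHK.DATA.N40x41

open BOX

def c684 : CD := ⟨⟨3840, 4096, 16, 24, 66, 0xcf227200d5415900d7aa9400d89ab300d8f6fd00d91a0c00d9273800d92c1d00d92deb00d92e9400d92ed100d92ee800d92ef000d92ef200d92ef300d92ef400d92ef400d92ef400d92ef400d92ef400d92ef400d92ef400d92ef400d92ef400d92ef400d92ef400d92ef400d92ef400d92ef400d92ef400d92ef400d92ef400d92ef400d92ef400d92ef400d92ef400d92ef400d92ef400d92ef400d92ef400d92ef400d92ef400d92ef400d92ef400d92ef400d92ef400d92ef400d92ef400d92ef400d92ef500d92ef800d92efe00d92f0a00d92f3000d92fae00d9312400d9351b00d93fcc00d95c5000d9a78e00da500500db5dd600dfc12800dda42900cf4c66009a147f⟩, 1065330473969, 0, 959159953149, 0, 255022059334, 402720904667, 133143986176, 329853488269, 4, 12, 50, 20, 0x5a3c2006, 0x111012a0128011601040065006500650065002000410060⟩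
theorem p684 : CrvP 40 41 40 c684.c := crvOK_sound (by decide +kernel)
def c685 : CD := ⟨⟨3968, 4096, 8, 12, 30, 0xe9582900e9582900e9582900e9582900e9582900e9582900e9582900e9582900e9582900e9582900e9582900e9582900e9582900e9582900e9582900e9582a00e9582b00e9583100e9584700e9589200e9596700e95b6800e95f1100e969f200e9616b00e9167c00e7b94500e2822d00d0e249009aa525⟩, 1090932872173, 0, 1046483305741, 0, 132797527825, 204952592248, 67645734912, 219902325491, 7, 15, 8, 13, 0x5f4c3b2b1c0e05, 0x11a012901220116010900650065006500650065000f00240039004d0061⟩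
theorem p685 : CrvP 40 41 40 c685.c := crvOK_sound (by decide +kernel)

end Pool.Agent.Lib.MP_af3a4a_an.P1.CHK.DATA.N40x41
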