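import Pool.Agent.Lib.MP_af3a4a_an.P1.CHK.DATA.N40x41.K0
import Pool.Agent.Lib.MP_af3a4a_an.P1.CHK.DATA.N40x41.K1
import Pool.Agent.Lib.MP_af3a4a_an.P1.CHK.DATA.N40x41.K2
import Pool.Agent.Lib.MP_af3a4a_an.P1.CHK.DATA.N40x41.K3

/-! glue for 40 <= N <= 41 (generated) -/

set_option autoImplicit false
set_option maxRecDepth 100000

namespace Pool.Agent.Lib.MP_af3a4a_an.P1.CHK.DATA.N40x41

open BOX

theorem g0 : ChunkP 40 41 0 512 0 101 0 2484 := ChunkP.g k0 k1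
theorem g1 : ChunkP 40 41 512 1024 80 96 1056 2484 := ChunkP.r k8 k9
theorem g2 : ChunkP 40 41 512 1024 80 96 1008 2484 := ChunkP.R k7 g1
theorem g3 : ChunkP 40 41 512 1024 80 96 864 2484 := ChunkP.R k6 g2
theorem g4 : ChunkP 40 41 512 1024 80 96 720 2484 := ChunkP.R k5 g3
theorem g5 : ChunkP 40 41 512 1024 80 96 0 2484 := ChunkP.R k4 g4
theorem g6 : ChunkP 40 41 512 1024 64 96 0 2484 := ChunkP.g k3 g5
theorem g7 : ChunkP 40 41 512 1024 64 101 0 2484 := ChunkP.g g6 k10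
theorem g8 : ChunkP 40 41 512 1024 0 101 0 2484 := ChunkP.g k2 g7
theorem g9 : ChunkP 40 41 0 1024 0 101 0 2484 := ChunkP.r g0 g8
theorem g10 : ChunkP 40 41 1024 1536 64 80 576 2484 := ChunkP.r k14 k15
theorem g11 : ChunkP 40 41 1024 1536 64 80 480 2484 := ChunkP.R k13 g10
theorem g12 : ChunkP 40 41 1024 1536 64 80 0 2484 := ChunkP.R k12 g11
theorem g13 : ChunkP 40 41 1024 1536 80 96 528 2484 := ChunkP.r k18 k19
theorem g14 : ChunkP 40 41 1024 1536 80 96 480 2484 := ChunkP.R k17 g13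
theorem g15 : ChunkP 40 41 1024 1536 80 96 0 2484 := ChunkP.R k16 g14
theorem g16 : ChunkP 40 41 1024 1536 64 96 0 2484 := ChunkP.g g12 g15
theorem g17 : ChunkP 40 41 1024 1536 64 101 0 2484 := ChunkP.g g16 k20
theorem g18 : ChunkP 40 41 1024 1536 0 101 0 2484 := ChunkP.g k11 g17
theorem g19 : ChunkP 40 41 1536 2048 64 96 0 2484 := ChunkP.g k22 k23
theorem g20 : ChunkP 40 41 1536 2048 64 101 0 2484 := ChunkP.g g19 k24
theorem g21 : ChunkP 40 41 1536 2048 0 101 0 2484 := ChunkP.g k21 g20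
theorem g22 : ChunkP 40 41 1024 2048 0 101 0 2484 := ChunkP.r g18 g21
theorem g23 : ChunkP 40 41 0 2048 0 101 0 2484 := ChunkP.r g9 g22
theorem g24 : ChunkP 40 41 2048 3072 0 101 0 2484 := ChunkP.r k25 k26
theorem g25 : ChunkP 40 41 2048 4096 0 101 0 2484 := ChunkP.r g24 k27
theorem g26 : ChunkP 40 41 0 4096 0 101 0 2484 := ChunkP.r g23 g25

/-- the whole box -/
theorem allBox : ChunkP 40 41 0 4096 0 101 0 2484 := g26

theorem full {N : ℕ} (hNa : 40 ≤ N) (hNb : N ≤ 41) {z w : Fin N → ℂ} {R : ℝ} {σ : Fin N → ℂ}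
    (hC : Pool.Agent.Lib.MP_af3a4a_an.P1.H80.Cfg2 N z w R σ) : ((2484 : ℕ) : ℝ) / 1024 < R := ChunkP.full allBox hNa hNb hC

end Pool.Agent.Lib.MP_af3a4a_an.P1.CHK.DATA.N40x41
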